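import Pool.Agent.MP_9210c2_an.H7.Core

/-! Many almost disjoint scales at a common level force a small covering constant. -/

namespace Pool.Agent.MP_9210c2_an.H7

open MeasureTheory Set
open scoped ENNReal

variable {n : ℕ}

lemma geo1 (N : ℕ) : ∑ l ∈ Finset.range N, (1 / 16 : ℝ) ^ (N - l) ≤ 1 / 15 := by
  induction N with
  | zero => simp
  | succ N ih =>
    rw [Finset.sum_range_succ, show N + 1 - N = 1 by omega]
    have : ∑ l ∈ Finset.range N, (1 / 16 : ℝ) ^ (N + 1 - l) =
        (∑ l ∈ Finset.range N, (1 / 16 : ℝ) ^ (N - l)) * (1 / 16) := by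
      rw [Finset.sum_mul]
      refine Finset.sum_congr rfl fun l hl => ?_
      rw [← pow_succ, show N - l + 1 = N + 1 - l by have := Finset.mem_range.1 hl; omega]
    rw [this]
    linarith

lemma geo2 (N : ℕ) : ∑ l ∈ Finset.range N, ∑ k ∈ Finset.range N,
    (if l = k then 0 else (1 / 16 : ℝ) ^ (max l k - min l k)) ≤ 2 / 15 * N := by
  induction N with
  | zero => simp
  | succ N ih =>
    rw [Finset.sum_range_succ]
    simp only [Finset.sum_range_succ _ N, Finset.sum_add_distrib, if_true]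
    have h1 : ∑ l ∈ Finset.range N, (if l = N then 0 else (1 / 16 : ℝ) ^ (max l N - min l N)) =
        ∑ l ∈ Finset.range N, (1 / 16 : ℝ) ^ (N - l) := Finset.sum_congr rfl fun l hl => by
      have := Finset.mem_range.1 hl
      rw [if_neg this.ne, max_eq_right this.le, min_eq_left this.le]
    have h2 : ∑ l ∈ Finset.range N, (if N = l then 0 else (1 / 16 : ℝ) ^ (max N l - min N l)) =
        ∑ l ∈ Finset.range N, (1 / 16 : ℝ) ^ (N - l) := Finset.sum_congr rfl fun l hl => by
      have := Finset.mem_range.1 hl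
      rw [if_neg this.ne', max_eq_left this.le, min_eq_right this.le]
    rw [h1, h2]
    have := geo1 N
    push_cast
    linarith

lemma exp_neg_three : Real.exp (-3) ≤ 1 / 16 := by
  rw [Real.exp_neg, ← one_div]
  refine one_div_le_one_div_of_le (by norm_num) ?_
  have h : Real.exp 3 = Real.exp 1 ^ 3 := by rw [← Real.exp_nat_mul]; norm_num
  have h1 := Real.exp_one_gt_d9
  rw [h]
  calc (16 : ℝ) ≤ 2.7182818283 ^ 3 := by norm_num
    _ ≤ _ := by gcongr

lemma tail_bound (hn : 1 ≤ n) {P T σ : ℝ} (hP0 : 0 ≤ P) (hP : P ≤ n) (hT : 4 * √n ≤ T)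
    (hσ : |σ| = 1 / √n) :
    Real.exp ((Real.exp σ - 1) * P) * Real.exp (-(σ * P) - T / √n) ≤ 1 / 16 := by
  have hn' : (1 : ℝ) ≤ n := by exact_mod_cast hn
  have hs : 1 ≤ √n := Real.one_le_sqrt.2 hn'
  have h1 : |σ| ≤ 1 := by rw [hσ, div_le_one (by linarith)]; exact hs
  have h2 := (abs_le.1 (Real.abs_exp_sub_one_sub_id_le h1)).2
  have h3 : σ ^ 2 = 1 / n := by
    rw [← sq_abs, hσ, div_pow, Real.sq_sqrt (by linarith), one_pow]
  have h4 : 4 ≤ T / √n := by rw [le_div_iff₀ (by linarith)]; exact hT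
  have h5 : σ ^ 2 * P ≤ 1 := by
    rw [h3, one_div, inv_mul_le_iff₀ (by linarith)]; linarith
  rw [← Real.exp_add]
  refine le_trans (Real.exp_le_exp.2 ?_) exp_neg_three
  nlinarith [mul_le_mul_of_nonneg_right h2 hP0]

/-- A single scale: either the average lies in the band of levels or a tilted average
dominates it. -/
lemma one_scale {a : Fin n → ℝ} {δ : ℝ} (hδ : 0 < δ) (ha : ∀ i, 0 < a i)
    (h2 : ∀ i, δ ≤ 2 * a i) (P T : ℕ) (hw1 : 1 / 2 ≤ 2 ^ P / δ ^ n) (hw2 : 2 ^ P / δ ^ n ≤ 2)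
    {θ : ℝ} (hθ : 0 ≤ θ) (x : Fin n → ℝ) :
    (∃ t < 2 * T + 1, 2 ^ t / (2 ^ T * 2 * 16 ^ n) ≤ rr a δ x ∧
      rr a δ x ≤ 4 * (2 ^ t / (2 ^ T * 2 * 16 ^ n))) ∨
    rr a δ x ≤ tl a δ θ x * Real.exp (-(θ * P) - T * θ) +
      tl a δ (-θ) x * Real.exp (-(-θ * P) - T * θ) := by
  have n1 := mul_nonneg (tl_nonneg hδ ha h2 θ x) (Real.exp_pos (-(θ * P) - T * θ)).le
  have n2 := mul_nonneg (tl_nonneg hδ ha h2 (-θ) x) (Real.exp_pos (-(-θ * P) - T * θ)).le
  have n3 := rr_nonneg a hδ x
  by_cases hx : rr a δ x = 0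
  · right; linarith
  obtain ⟨B, hB, htl⟩ := rr_form ha h2 hx
  by_cases h1 : P + T < B
  · right
    have h1' : (P : ℝ) + T ≤ B := by exact_mod_cast h1.le
    have : rr a δ x ≤ tl a δ θ x * Real.exp (-(θ * P) - T * θ) := by
      rw [htl, mul_assoc, ← Real.exp_add]
      exact le_mul_of_one_le_right n3 (Real.one_le_exp (by nlinarith))
    linarith
  by_cases h3 : B + T < P
  · right
    have h3' : (B : ℝ) + T ≤ P := by exact_mod_cast h3.le
    have : rr a δ x ≤ tl a δ (-θ) x * Real.exp (-(-θ * P) - T * θ) := by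
      rw [htl, mul_assoc, ← Real.exp_add]
      exact le_mul_of_one_le_right n3 (Real.one_le_exp (by nlinarith))
    linarith
  left
  obtain ⟨t, ht⟩ : ∃ t, t + P = B + T := ⟨B + T - P, by omega⟩
  refine ⟨t, by omega, ?_⟩
  have e : rr a δ x = 2 * (2 ^ t / (2 ^ T * 2 * 16 ^ n)) * (2 ^ P / δ ^ n) := by
    have e2 : (2 : ℝ) ^ t * 2 ^ P = 2 ^ B * 2 ^ T := by rw [← pow_add, ← pow_add, ht]
    rw [hB, mul_pow]
    field_simp
    linarith
  have hl : (0 : ℝ) < 2 ^ t / (2 ^ T * 2 * 16 ^ n) := by positivity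
  rw [e]
  constructor <;> nlinarith

theorem abstract_bound {c : ℝ≥0∞} (hc : Admissible (cube n) c) (hc0 : c ≠ 0) (hn : 1 ≤ n)
    {a : Fin n → ℝ} (ha : ∀ i, 0 < a i) (N : ℕ) (g : ℕ → ℝ) (hg : ∀ l, 0 < g l)
    (hmono : Monotone g) (h2 : ∀ l < N, ∀ i, g l ^ 2 ≤ 2 * a i) (P : ℕ → ℕ)
    (hP : ∀ l < N, ∑ i, 7 / 4 * max (g l ^ 2 - a i) 0 / g l ^ 2 = (P l : ℝ))
    (hPn : ∀ l < N, P l ≤ n)
    (hw : ∀ l < N, 1 / 2 ≤ 2 ^ P l / (g l ^ 2) ^ n ∧ 2 ^ P l / (g l ^ 2) ^ n ≤ 2)
    (hcr : ∀ l k, l < k → k < N →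
      ((g l ^ 2 + 0.42 * (g k ^ 2 - g l ^ 2)) / (g l * g k)) ^ n ≤ (1 / 16) ^ (k - l))
    (T : ℕ) (hT : 4 * √n ≤ T) : c.toReal * (0.7 * N) ≤ 4 * (2 * T + 1) := by
  classical
  have hδ : ∀ l, 0 < g l ^ 2 := fun l => pow_pos (hg l) 2
  set θ : ℝ := 1 / √n with hθ
  have hθ0 : 0 ≤ θ := by positivity
  set lam : ℕ → ℝ := fun t => 2 ^ t / (2 ^ T * 2 * 16 ^ n) with hlam
  have hlam0 : ∀ t, 0 < lam t := fun t => by positivity
  set E : ℕ → Set (Fin n → ℝ) := fun t => {x | ∃ l < N, lam t ≤ rr a (g l ^ 2) x} with hE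
  have hlev := fun t => level_bound hc hc0 a N (fun l => g l ^ 2) hδ (hlam0 t)
  set Y : ℕ → ℕ → (Fin n → ℝ) → ℝ := fun l k x =>
    if l = k then 0 else cr a (g (min l k)) (g (max l k)) x with hY
  set Z : ℕ → (Fin n → ℝ) → ℝ := fun l x =>
    tl a (g l ^ 2) θ x * Real.exp (-(θ * P l) - T * θ) +
      tl a (g l ^ 2) (-θ) x * Real.exp (-(-θ * P l) - T * θ) with hZ
  have hY0 : ∀ l < N, ∀ k < N, ∀ x, 0 ≤ Y l k x := by
    intro l hl k hk x
    simp only [hY]
    split_ifs
    · exact le_rfl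
    · exact cr_nonneg (hg _) (hmono min_le_max) ha (h2 _ (max_lt hl hk)) x
  have hZ0 : ∀ l < N, ∀ x, 0 ≤ Z l x := fun l hl x =>
    add_nonneg (mul_nonneg (tl_nonneg (hδ l) ha (h2 l hl) _ x) (Real.exp_pos _).le)
      (mul_nonneg (tl_nonneg (hδ l) ha (h2 l hl) _ x) (Real.exp_pos _).le)
  have hI0 : ∀ t x, 0 ≤ (E t).indicator (fun _ => 4 * lam t) x := fun t x =>
    Set.indicator_nonneg (fun _ _ => by have := hlam0 t; positivity) x
  have hpt : ∀ x, ∑ l ∈ Finset.range N, rr a (g l ^ 2) x ≤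
      ∑ t ∈ Finset.range (2 * T + 1), (E t).indicator (fun _ => 4 * lam t) x +
        ∑ l ∈ Finset.range N, (∑ k ∈ Finset.range N, Y l k x + Z l x) := by
    intro x
    rcases Nat.eq_zero_or_pos N with rfl | hN
    · simpa using Finset.sum_nonneg fun t _ => hI0 t x
    obtain ⟨m, hm, hmax⟩ := Finset.exists_max_image (Finset.range N) (fun l => rr a (g l ^ 2) x)
      ⟨0, Finset.mem_range.2 hN⟩
    have hm' := Finset.mem_range.1 hm
    have hS : ∀ l < N, 0 ≤ ∑ k ∈ Finset.range N, Y l k x := fun l hl =>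
      Finset.sum_nonneg fun k hk => hY0 l hl k (Finset.mem_range.1 hk) x
    have hle : ∀ l ∈ Finset.range N, rr a (g l ^ 2) x ≤
        (if l = m then ∑ t ∈ Finset.range (2 * T + 1), (E t).indicator (fun _ => 4 * lam t) x
          else 0) + (∑ k ∈ Finset.range N, Y l k x + Z l x) := by
      intro l hl
      have hl' := Finset.mem_range.1 hl
      have hI : 0 ≤ ∑ t ∈ Finset.range (2 * T + 1), (E t).indicator (fun _ => 4 * lam t) x :=
        Finset.sum_nonneg fun t _ => hI0 t x
      split_ifs with h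
      · rcases one_scale (hδ l) ha (h2 l hl') (P l) T (hw l hl').1 (hw l hl').2 hθ0 x with
          ⟨t, ht, h3, h4⟩ | h3
        · have h5 := Finset.single_le_sum (f := fun t => (E t).indicator (fun _ => 4 * lam t) x)
            (fun t _ => hI0 t x) (Finset.mem_range.2 ht)
          have h6 : x ∈ E t := ⟨l, hl', h3⟩
          simp only [Set.indicator_of_mem h6] at h5
          have := hS l hl'
          have := hZ0 l hl' x
          linarith
        · have := hS l hl'
          linarith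
      · have h5 := Finset.single_le_sum (f := fun k => Y l k x)
          (fun k hk => hY0 l hl' k (Finset.mem_range.1 hk) x) hm
        have h6 := min_le_cr (hg (min l m)) (hmono min_le_max) ha (h2 _ (max_lt hl' hm')) x
        have h7 := hmax l hl
        have h8 : rr a (g l ^ 2) x ≤
            min (rr a (g (min l m) ^ 2) x) (rr a (g (max l m) ^ 2) x) := by
          rcases le_total l m with h9 | h9
          · rw [min_eq_left h9, max_eq_right h9]; exact le_min le_rfl h7
          · rw [min_eq_right h9, max_eq_left h9]; exact le_min h7 le_rfl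
        have h9 : Y l m x = cr a (g (min l m)) (g (max l m)) x := if_neg h
        have := hZ0 l hl' x
        linarith
    refine (Finset.sum_le_sum hle).trans (le_of_eq ?_)
    rw [Finset.sum_add_distrib, Finset.sum_ite_eq' _ m, if_pos hm]
  have iI : ∀ t, Integrable ((E t).indicator fun _ => 4 * lam t) := fun t =>
    (integrableOn_const (hlev t).2.1 enorm_ne_top).integrable_indicator (hlev t).1
  have iY : ∀ l k, Integrable (Y l k) := by
    intro l k
    by_cases h : l = k
    · simp only [hY, if_pos h]; exact integrable_zero _ _ _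
    · simp only [hY, if_neg h]; exact int_cr _ _ _
  have iZ : ∀ l, Integrable (Z l) := fun l =>
    ((int_tl _ _ _).mul_const _).add ((int_tl _ _ _).mul_const _)
  have iS : ∀ l, Integrable fun x => ∑ k ∈ Finset.range N, Y l k x := fun l =>
    integrable_finsetSum _ fun k _ => iY l k
  have iA : ∀ l, Integrable fun x => ∑ k ∈ Finset.range N, Y l k x + Z l x := fun l =>
    (iS l).add (iZ l)
  have hint := integral_mono (integrable_finsetSum _ fun l _ => int_rr a (g l ^ 2))
    ((integrable_finsetSum (Finset.range (2 * T + 1)) fun t _ => iI t).add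
      (integrable_finsetSum (Finset.range N) fun l _ => iA l)) hpt
  simp only [Pi.add_apply] at hint
  rw [integral_add (integrable_finsetSum _ fun t _ => iI t)
    (integrable_finsetSum _ fun l _ => iA l), integral_finsetSum _ fun l _ => int_rr a _,
    integral_finsetSum _ fun t _ => iI t, integral_finsetSum _ fun l _ => iA l] at hint
  have e1 : ∑ l ∈ Finset.range N, ∫ x, rr a (g l ^ 2) x = N := by
    simp [integral_rr a (hδ _)]
  have e2 : ∑ l ∈ Finset.range N, ∫ x, (∑ k ∈ Finset.range N, Y l k x + Z l x) ≤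
      ∑ l ∈ Finset.range N, (∑ k ∈ Finset.range N,
        (if l = k then 0 else (1 / 16 : ℝ) ^ (max l k - min l k)) + 1 / 8) := by
    refine Finset.sum_le_sum fun l hl => ?_
    have hl' := Finset.mem_range.1 hl
    rw [integral_add (iS l) (iZ l), integral_finsetSum _ fun k _ => iY l k]
    refine add_le_add (Finset.sum_le_sum fun k hk => ?_) ?_
    · have hk' := Finset.mem_range.1 hk
      by_cases h : l = k
      · simp [hY, h]
      · simp only [hY, if_neg h]
        exact (integral_cr (hg _) (hmono min_le_max) ha (h2 _ (max_lt hl' hk'))).trans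
          (hcr _ _ (min_lt_max.2 h) (max_lt hl' hk'))
    · have t1 := integral_tl (hδ l) ha (h2 l hl') θ
      have t2 := integral_tl (hδ l) ha (h2 l hl') (-θ)
      rw [hP l hl'] at t1 t2
      have hPl : (P l : ℝ) ≤ n := by exact_mod_cast hPn l hl'
      have b1 := tail_bound hn (Nat.cast_nonneg (P l)) hPl hT (σ := θ) (abs_of_nonneg hθ0)
      have b2 := tail_bound hn (Nat.cast_nonneg (P l)) hPl hT (σ := -θ)
        (by rw [abs_neg]; exact abs_of_nonneg hθ0)
      have eT : (T : ℝ) / √n = T * θ := by rw [hθ]; ring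
      rw [eT] at b1 b2
      simp only [hZ]
      rw [integral_add ((int_tl _ _ _).mul_const _) ((int_tl _ _ _).mul_const _),
        integral_mul_const, integral_mul_const]
      have c1 := mul_le_mul_of_nonneg_right t1 (Real.exp_pos (-(θ * P l) - T * θ)).le
      have c2 := mul_le_mul_of_nonneg_right t2 (Real.exp_pos (-(-θ * P l) - T * θ)).le
      linarith
  rw [Finset.sum_add_distrib, Finset.sum_const, Finset.card_range, nsmul_eq_mul] at e2
  have e3 := geo2 N
  have e4 : c.toReal * ∑ t ∈ Finset.range (2 * T + 1),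
      ∫ x, (E t).indicator (fun _ => 4 * lam t) x ≤ 4 * (2 * T + 1) := by
    rw [Finset.mul_sum]
    refine (Finset.sum_le_sum (g := fun _ => (4 : ℝ)) fun t _ => ?_).trans (le_of_eq ?_)
    · rw [integral_indicator_const _ (hlev t).1, smul_eq_mul]
      have := (hlev t).2.2
      linarith
    · simp; ring
  have hN0 : (0 : ℝ) ≤ N := Nat.cast_nonneg N
  refine le_trans (mul_le_mul_of_nonneg_left ?_ ENNReal.toReal_nonneg) e4
  linarith

end Pool.Agent.MP_9210c2_an.H7
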