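import Pool.Agent.MP_9210c2_an.H7.Key

/-! Averages of a product of point masses over cubes: integrals and pointwise comparisons. -/

namespace Pool.Agent.MP_9210c2_an.H7

open MeasureTheory Set
open scoped ENNReal

variable {n : ℕ}

/-- Normalised average of the point masses over the cube of half-side `δ` centred at `x`. -/
noncomputable def rr (a : Fin n → ℝ) (δ : ℝ) (x : Fin n → ℝ) : ℝ :=
  ∏ i, NN (a i) δ (x i) / (16 * δ)

/-- Exponentially tilted average. -/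
noncomputable def tl (a : Fin n → ℝ) (δ σ : ℝ) (x : Fin n → ℝ) : ℝ :=
  ∏ i, (NN (a i) δ (x i) + 2 * (Real.exp σ - 1) * DD (a i) δ (x i)) / (16 * δ)

/-- Majorant of the geometric mean of the averages at half-sides `g ^ 2` and `h ^ 2`. -/
noncomputable def cr (a : Fin n → ℝ) (g h : ℝ) (x : Fin n → ℝ) : ℝ :=
  ∏ i, (NN (a i) (g ^ 2) (x i) + 0.42 * (DD (a i) (h ^ 2) (x i) - DD (a i) (g ^ 2) (x i))) /
    (16 * (g * h))

lemma NN_nonneg (a δ x : ℝ) : 0 ≤ NN a δ x := Nat.cast_nonneg _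

lemma rr_nonneg (a : Fin n → ℝ) {δ : ℝ} (hδ : 0 < δ) (x : Fin n → ℝ) : 0 ≤ rr a δ x :=
  Finset.prod_nonneg fun i _ => div_nonneg (NN_nonneg _ _ _) (by positivity)

lemma meas_rr (a : Fin n → ℝ) (δ : ℝ) : Measurable (rr a δ) :=
  Finset.measurable_prod _ fun i _ =>
    ((meas_NN (a i) δ).comp (measurable_pi_apply i)).div_const _

lemma int_rr (a : Fin n → ℝ) (δ : ℝ) : Integrable (rr a δ) :=
  Integrable.fintype_prod (f := fun i x => NN (a i) δ x / (16 * δ))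
    fun _ => (int_NN _ _).div_const _

lemma integral_rr (a : Fin n → ℝ) {δ : ℝ} (hδ : 0 < δ) : ∫ x, rr a δ x = 1 := by
  unfold rr
  rw [integral_fintype_prod_volume_eq_prod (fun i x => NN (a i) δ x / (16 * δ))]
  refine Finset.prod_eq_one fun i _ => ?_
  rw [integral_div, integral_NN _ hδ.le, div_self (by positivity)]

lemma int_tl (a : Fin n → ℝ) (δ σ : ℝ) : Integrable (tl a δ σ) :=
  Integrable.fintype_prod
    (f := fun i x => (NN (a i) δ x + 2 * (Real.exp σ - 1) * DD (a i) δ x) / (16 * δ))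
    fun _ => ((int_NN _ _).add ((int_DD _ _).const_mul _)).div_const _

lemma tl_factor_nonneg {a δ : ℝ} (ha : 0 < a) (hδ : δ ≤ 2 * a) (σ x : ℝ) :
    0 ≤ NN a δ x + 2 * (Real.exp σ - 1) * DD a δ x := by
  have := Real.exp_pos σ
  rcases tri' ha hδ x with ⟨h1, h2⟩ | ⟨h1, h2⟩ | ⟨h1, h2⟩ <;> rw [h1, h2] <;> linarith

lemma tl_nonneg {a : Fin n → ℝ} {δ : ℝ} (hδ : 0 < δ) (ha : ∀ i, 0 < a i)
    (h2 : ∀ i, δ ≤ 2 * a i) (σ : ℝ) (x : Fin n → ℝ) : 0 ≤ tl a δ σ x :=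
  Finset.prod_nonneg fun i _ => div_nonneg (tl_factor_nonneg (ha i) (h2 i) _ _) (by positivity)

lemma integral_tl {a : Fin n → ℝ} {δ : ℝ} (hδ : 0 < δ) (ha : ∀ i, 0 < a i)
    (h2 : ∀ i, δ ≤ 2 * a i) (σ : ℝ) :
    ∫ x, tl a δ σ x ≤ Real.exp ((Real.exp σ - 1) * ∑ i, 7 / 4 * max (δ - a i) 0 / δ) := by
  unfold tl
  rw [integral_fintype_prod_volume_eq_prod
    (fun i x => (NN (a i) δ x + 2 * (Real.exp σ - 1) * DD (a i) δ x) / (16 * δ)),
    Finset.mul_sum, Real.exp_sum]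
  refine Finset.prod_le_prod (fun i _ => integral_nonneg fun x =>
    div_nonneg (tl_factor_nonneg (ha i) (h2 i) _ _) (by positivity)) fun i _ => ?_
  rw [integral_div, integral_add (int_NN _ _) ((int_DD _ _).const_mul _), integral_const_mul,
    integral_NN _ hδ.le, integral_DD]
  refine le_trans (le_of_eq ?_) (Real.add_one_le_exp _)
  field_simp
  ring

lemma int_cr (a : Fin n → ℝ) (g h : ℝ) : Integrable (cr a g h) :=
  Integrable.fintype_prod
    (f := fun i x => (NN (a i) (g ^ 2) x + 0.42 * (DD (a i) (h ^ 2) x - DD (a i) (g ^ 2) x)) /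
      (16 * (g * h)))
    fun _ => ((int_NN _ _).add (((int_DD _ _).sub (int_DD _ _)).const_mul _)).div_const _

lemma cr_factor {a δ δ' : ℝ} (ha : 0 < a) (h : δ ≤ δ') (h2 : δ' ≤ 2 * a) (x : ℝ) :
    0 ≤ NN a δ x + 0.42 * (DD a δ' x - DD a δ x) ∧
      NN a δ x * NN a δ' x ≤ (NN a δ x + 0.42 * (DD a δ' x - DD a δ x)) ^ 2 := by
  have hm := NN_mono (a := a) h x
  rcases tri' ha (h.trans h2) x with ⟨h1, h2'⟩ | ⟨h1, h2'⟩ | ⟨h1, h2'⟩ <;>
    rcases tri' ha h2 x with ⟨h3, h4⟩ | ⟨h3, h4⟩ | ⟨h3, h4⟩ <;>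
    rw [h1, h3] at hm <;> rw [h1, h2', h3, h4] <;> constructor <;> norm_num

lemma cr_nonneg {a : Fin n → ℝ} {g h : ℝ} (hg : 0 < g) (hgh : g ≤ h) (ha : ∀ i, 0 < a i)
    (h2 : ∀ i, h ^ 2 ≤ 2 * a i) (x : Fin n → ℝ) : 0 ≤ cr a g h x :=
  Finset.prod_nonneg fun i _ => div_nonneg
    (cr_factor (ha i) (pow_le_pow_left₀ hg.le hgh 2) (h2 i) _).1
    (by have := hg.trans_le hgh; positivity)

lemma integral_cr {a : Fin n → ℝ} {g h : ℝ} (hg : 0 < g) (hgh : g ≤ h) (ha : ∀ i, 0 < a i)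
    (h2 : ∀ i, h ^ 2 ≤ 2 * a i) :
    ∫ x, cr a g h x ≤ ((g ^ 2 + 0.42 * (h ^ 2 - g ^ 2)) / (g * h)) ^ n := by
  have hh := hg.trans_le hgh
  have hsq := pow_le_pow_left₀ hg.le hgh 2
  unfold cr
  rw [integral_fintype_prod_volume_eq_prod
    (fun i x => (NN (a i) (g ^ 2) x + 0.42 * (DD (a i) (h ^ 2) x - DD (a i) (g ^ 2) x)) /
      (16 * (g * h)))]
  refine le_trans (Finset.prod_le_prod (fun i _ => integral_nonneg fun x =>
    div_nonneg (cr_factor (ha i) hsq (h2 i) _).1 (by positivity)) fun i _ => ?_)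
    (le_of_eq (by rw [Finset.prod_const, Finset.card_univ, Fintype.card_fin]))
  have hi : Integrable fun x => 0.42 * (DD (a i) (h ^ 2) x - DD (a i) (g ^ 2) x) :=
    ((int_DD _ _).sub (int_DD _ _)).const_mul _
  rw [integral_div, integral_add (int_NN _ _) hi, integral_const_mul, integral_sub (int_DD _ _) (int_DD _ _),
    integral_NN _ (by positivity), integral_DD, integral_DD,
    div_le_div_iff₀ (by positivity) (by positivity)]
  have h3 : max (h ^ 2 - a i) 0 - max (g ^ 2 - a i) 0 ≤ h ^ 2 - g ^ 2 := by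
    rcases le_total (h ^ 2 - a i) 0 with h4 | h4
    · rw [max_eq_right h4]; have := le_max_right (g ^ 2 - a i) 0; linarith
    · rw [max_eq_left h4]; have := le_max_left (g ^ 2 - a i) 0; linarith
  have h5 : 0 < g * h := by positivity
  nlinarith [mul_le_mul_of_nonneg_right h3 h5.le, mul_nonneg (sub_nonneg.2 hsq) h5.le]

lemma mul_le_cr_sq {a : Fin n → ℝ} {g h : ℝ} (hg : 0 < g) (hgh : g ≤ h) (ha : ∀ i, 0 < a i)
    (h2 : ∀ i, h ^ 2 ≤ 2 * a i) (x : Fin n → ℝ) :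
    rr a (g ^ 2) x * rr a (h ^ 2) x ≤ cr a g h x ^ 2 := by
  have hh := hg.trans_le hgh
  unfold rr cr
  rw [← Finset.prod_mul_distrib, ← Finset.prod_pow]
  refine Finset.prod_le_prod (fun i _ => mul_nonneg
    (div_nonneg (NN_nonneg _ _ _) (by positivity))
    (div_nonneg (NN_nonneg _ _ _) (by positivity))) fun i _ => ?_
  rw [div_mul_div_comm, div_pow, show 16 * g ^ 2 * (16 * h ^ 2) = (16 * (g * h)) ^ 2 by ring]
  exact div_le_div_of_nonneg_right
    (cr_factor (ha i) (pow_le_pow_left₀ hg.le hgh 2) (h2 i) _).2 (by positivity)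

lemma min_le_cr {a : Fin n → ℝ} {g h : ℝ} (hg : 0 < g) (hgh : g ≤ h) (ha : ∀ i, 0 < a i)
    (h2 : ∀ i, h ^ 2 ≤ 2 * a i) (x : Fin n → ℝ) :
    min (rr a (g ^ 2) x) (rr a (h ^ 2) x) ≤ cr a g h x := by
  have hh := hg.trans_le hgh
  have h1 := rr_nonneg a (δ := g ^ 2) (by positivity) x
  have h3 := rr_nonneg a (δ := h ^ 2) (by positivity) x
  refine le_of_sq_le_sq ?_ (cr_nonneg hg hgh ha h2 x)
  refine le_trans ?_ (mul_le_cr_sq hg hgh ha h2 x)
  rw [sq]
  exact mul_le_mul (min_le_left _ _) (min_le_right _ _) (le_min h1 h3) h1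

lemma rr_form {a : Fin n → ℝ} {δ : ℝ} (ha : ∀ i, 0 < a i) (h2 : ∀ i, δ ≤ 2 * a i)
    {x : Fin n → ℝ} (hx : rr a δ x ≠ 0) :
    ∃ B : ℕ, rr a δ x = 2 ^ B / (16 * δ) ^ n ∧
      ∀ σ, tl a δ σ x = rr a δ x * Real.exp (σ * B) := by
  have h : ∀ i, ∃ d : ℕ, NN (a i) δ (x i) = 2 ^ d ∧ ∀ σ, NN (a i) δ (x i) +
      2 * (Real.exp σ - 1) * DD (a i) δ (x i) = NN (a i) δ (x i) * Real.exp (σ * d) := by
    intro i
    have hi := Finset.prod_ne_zero_iff.1 hx i (Finset.mem_univ i)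
    rcases tri' (ha i) (h2 i) (x i) with ⟨h1, h3⟩ | ⟨h1, h3⟩ | ⟨h1, h3⟩
    · simp [h1] at hi
    · exact ⟨0, by simp [h1], fun σ => by simp [h1, h3]⟩
    · exact ⟨1, by simp [h1], fun σ => by rw [h1, h3]; simp; ring⟩
  choose d hd using h
  refine ⟨∑ i, d i, ?_, fun σ => ?_⟩
  · unfold rr
    rw [Finset.prod_div_distrib, Finset.prod_const, Finset.card_univ, Fintype.card_fin,
      ← Finset.prod_pow_eq_pow_sum]
    exact congrArg (· / _) (Finset.prod_congr rfl fun i _ => (hd i).1)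
  · unfold tl rr
    rw [Nat.cast_sum, Finset.mul_sum, Real.exp_sum, ← Finset.prod_mul_distrib]
    refine Finset.prod_congr rfl fun i _ => ?_
    rw [(hd i).2]; ring

open Classical in
lemma count_eq (a : Fin n → ℝ) {δ : ℝ} (hδ : 0 < δ) (x : Fin n → ℝ) :
    (((Fintype.piFinset fun _ : Fin n => Finset.range 8).filter
      fun v => ∀ i, |x i - 2 * a i * (v i : ℝ)| < δ).card : ℝ) = rr a δ x * (16 * δ) ^ n := by
  have h : ((Fintype.piFinset fun _ : Fin n => Finset.range 8).filter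
      fun v => ∀ i, |x i - 2 * a i * (v i : ℝ)| < δ) =
      Fintype.piFinset fun i => cS (a i) δ (x i) := by
    ext v
    simp only [Finset.mem_filter, Fintype.mem_piFinset, cS, forall_and]
  rw [h, Fintype.card_piFinset]
  unfold rr
  rw [Finset.prod_div_distrib, Finset.prod_const, Finset.card_univ, Fintype.card_fin,
    div_mul_cancel₀ _ (by positivity)]
  simp [NN]

/-- Weak-type inequality for the example, from an admissible constant. -/
lemma level_bound {c : ℝ≥0∞} (hc : Admissible (cube n) c) (hc0 : c ≠ 0) (a : Fin n → ℝ)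
    (N : ℕ) (δ : ℕ → ℝ) (hδ : ∀ l, 0 < δ l) {lam : ℝ} (hlam : 0 < lam) :
    MeasurableSet {x | ∃ l < N, lam ≤ rr a (δ l) x} ∧
    volume {x | ∃ l < N, lam ≤ rr a (δ l) x} ≠ ∞ ∧
      c.toReal * (lam * volume.real {x | ∃ l < N, lam ≤ rr a (δ l) x}) ≤ 1 := by
  classical
  have hm : MeasurableSet {x | ∃ l < N, lam ≤ rr a (δ l) x} := by
    have : {x | ∃ l < N, lam ≤ rr a (δ l) x} = ⋃ l ∈ Finset.range N, {x | lam ≤ rr a (δ l) x} := by
      ext x; simp
    rw [this]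
    exact Finset.measurableSet_biUnion _ fun l _ => measurableSet_le measurable_const (meas_rr _ _)
  have hk := key hc (Fintype.piFinset fun _ : Fin n => Finset.range 8)
    (fun v i => 2 * a i * (v i : ℝ)) _ hm (lam * 8 ^ n) (by positivity) (by
      rintro x ⟨l, -, hl⟩
      refine ⟨δ l, hδ l, ?_⟩
      have := hδ l
      rw [count_eq a (hδ l), mul_assoc, ← mul_pow, show 8 * (2 * δ l) = 16 * δ l by ring]
      gcongr)
  have hY : (((Fintype.piFinset fun _ : Fin n => Finset.range 8).card : ℕ) : ℝ≥0∞) =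
      ENNReal.ofReal (8 ^ n) := by
    rw [Fintype.card_piFinset, ← ENNReal.ofReal_natCast]; simp
  rw [hY] at hk
  have hfin : volume {x | ∃ l < N, lam ≤ rr a (δ l) x} ≠ ∞ := by
    intro h
    rw [h, ENNReal.mul_top (mul_ne_zero hc0 (ENNReal.ofReal_pos.2 (by positivity)).ne')] at hk
    exact ENNReal.ofReal_ne_top (top_le_iff.1 hk)
  refine ⟨hm, hfin, ?_⟩
  have h2 := ENNReal.toReal_mono ENNReal.ofReal_ne_top hk
  rw [ENNReal.toReal_mul, ENNReal.toReal_mul, ENNReal.toReal_ofReal (by positivity),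
    ENNReal.toReal_ofReal (by positivity), ← measureReal_def] at h2
  have h8 : (0 : ℝ) < 8 ^ n := by positivity
  refine le_of_mul_le_mul_right ?_ h8
  linarith

end Pool.Agent.MP_9210c2_an.H7
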