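import Pool.Agent.MP_9210c2_an.Defs

/-! Point masses bound the covering constant of the cube; one-dimensional counts. -/

namespace Pool.Agent.MP_9210c2_an.H7

open MeasureTheory Set
open scoped ENNReal

lemma mem_body {n : ℕ} {x z : EuclideanSpace ℝ (Fin n)} {r : ℝ} (hr : 0 < r) :
    z ∈ body (cube n) x r ↔ ∀ i, |z i - x i| < r := by
  constructor
  · rintro ⟨y, hy, rfl⟩ i
    have := hy i
    simp only [PiLp.add_apply, PiLp.smul_apply, smul_eq_mul, add_sub_cancel_left, abs_mul,
      abs_of_pos hr]
    nlinarith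
  · intro h
    refine ⟨r⁻¹ • (z - x), fun i => ?_, ?_⟩
    · simp only [PiLp.smul_apply, PiLp.sub_apply, smul_eq_mul, abs_mul, abs_inv, abs_of_pos hr]
      rw [inv_mul_lt_iff₀ hr]; simpa using h i
    · simp [smul_smul, mul_inv_cancel₀ hr.ne']

lemma volume_body {n : ℕ} (x : EuclideanSpace ℝ (Fin n)) {r : ℝ} (hr : 0 < r) :
    volume (body (cube n) x r) = ENNReal.ofReal ((2 * r) ^ n) := by
  have h : body (cube n) x r = WithLp.ofLp ⁻¹' (Metric.ball (WithLp.ofLp x) r) := by
    ext z
    rw [mem_body hr, mem_preimage, mem_ball_iff_norm, pi_norm_lt_iff hr]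
    simp
  rw [h, (PiLp.volume_preserving_ofLp (Fin n)).measure_preimage
    measurableSet_ball.nullMeasurableSet, Real.volume_pi_ball _ hr]
  simp

open Classical in
/-- If every cube centred in `E` contains a proportional number of the points `y v`, an admissible
constant is bounded by the number of points. -/
lemma key {n : ℕ} {c : ℝ≥0∞} (hc : Admissible (cube n) c) {ι : Type} (Y : Finset ι)
    (y : ι → Fin n → ℝ) (E : Set (Fin n → ℝ)) (hE : MeasurableSet E) (lam : ℝ) (hlam : 0 ≤ lam)
    (h : ∀ x ∈ E, ∃ δ : ℝ, 0 < δ ∧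
      lam * (2 * δ) ^ n ≤ ((Y.filter fun v => ∀ i, |x i - y v i| < δ).card : ℝ)) :
    c * ENNReal.ofReal lam * volume E ≤ Y.card := by
  choose! δ hδ using h
  have hE' : MeasurableSet (WithLp.ofLp ⁻¹' E : Set (EuclideanSpace ℝ (Fin n))) :=
    (PiLp.volume_preserving_ofLp (Fin n)).measurable hE
  rw [← (PiLp.volume_preserving_ofLp (Fin n)).measure_preimage hE.nullMeasurableSet,
    hE'.measure_eq_iSup_isCompact]
  simp only [ENNReal.mul_iSup]
  refine iSup_le fun F => iSup_le fun hF => iSup_le fun hK => ?_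
  obtain ⟨S, -, hSF, hdis, hle⟩ := hc F hK (fun x => δ (WithLp.ofLp x))
    (fun x hx => (hδ _ (hF hx)).1)
  calc c * ENNReal.ofReal lam * volume F = ENNReal.ofReal lam * (c * volume F) := by ring
    _ ≤ ENNReal.ofReal lam * ∑' x : S, volume (body (cube n) x (δ (WithLp.ofLp x.1))) := by gcongr
    _ = ∑' x : S, ENNReal.ofReal lam * volume (body (cube n) x (δ (WithLp.ofLp x.1))) :=
        ENNReal.tsum_mul_left.symm
    _ ≤ ∑' x : S, ((Y.filter fun v => ∀ i, |x.1 i - y v i| < δ (WithLp.ofLp x.1)).card : ℝ≥0∞) := by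
        refine ENNReal.tsum_le_tsum fun x => ?_
        have hx := hδ _ (hF (hSF x.2))
        rw [volume_body _ hx.1, ← ENNReal.ofReal_mul hlam, ← ENNReal.ofReal_natCast]
        exact ENNReal.ofReal_le_ofReal hx.2
    _ ≤ Y.card := by
        rw [ENNReal.tsum_eq_iSup_sum]
        refine iSup_le fun s => ?_
        rw [← Nat.cast_sum, ← Finset.card_biUnion]
        · exact_mod_cast Finset.card_le_card
            (Finset.biUnion_subset.2 fun x _ => Finset.filter_subset _ _)
        · intro a _ b _ hab
          refine Finset.disjoint_left.2 fun v hva hvb => ?_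
          have hne : a.1 ≠ b.1 := fun h => hab (Subtype.ext h)
          have hd := hdis a.2 b.2 hne
          have hd' := Set.disjoint_left.1 hd
          refine @hd' (WithLp.toLp 2 (y v)) ?_ ?_
          · rw [mem_body (hδ _ (hF (hSF a.2))).1]
            intro i
            rw [abs_sub_comm]; exact (Finset.mem_filter.1 hva).2 i
          · rw [mem_body (hδ _ (hF (hSF b.2))).1]
            intro i
            rw [abs_sub_comm]; exact (Finset.mem_filter.1 hvb).2 i

lemma admissible_le_one {n : ℕ} {c : ℝ≥0∞} (hc : Admissible (cube n) c) : c ≤ 1 := by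
  classical
  have h := key hc ({0} : Finset ℕ) (fun _ _ => 0) (Metric.ball 0 1) measurableSet_ball
    ((2 ^ n)⁻¹) (by positivity) (fun x hx => ⟨1, one_pos, by
      have hx' : ∀ i, |x i| < 1 := by
        rw [mem_ball_zero_iff, pi_norm_lt_iff one_pos] at hx
        simpa using hx
      rw [Finset.filter_true_of_mem (by simpa using hx')]
      simp⟩)
  rw [Real.volume_pi_ball _ one_pos, mul_assoc, ← ENNReal.ofReal_mul (by positivity)] at h
  simpa using h

/-- Indices of the points `2 a j` within distance `δ` of `x`. -/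
noncomputable def cS (a δ x : ℝ) : Finset ℕ :=
  (Finset.range 8).filter fun j => |x - 2 * a * j| < δ

/-- Indices `j` such that both `2 a j` and `2 a (j+1)` are within distance `δ` of `x`. -/
noncomputable def cT (a δ x : ℝ) : Finset ℕ :=
  (Finset.range 7).filter fun j => |x - (2 * a * j + a)| < δ - a

lemma mem_cT {a δ x : ℝ} (ha : 0 < a) {j : ℕ} :
    j ∈ cT a δ x ↔ j ∈ cS a δ x ∧ j + 1 ∈ cS a δ x := by
  simp only [cT, cS, Finset.mem_filter, Finset.mem_range, abs_lt]
  push_cast
  constructor
  · rintro ⟨h, h1, h2⟩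
    exact ⟨⟨by omega, by linarith, by linarith⟩, by omega, by linarith, by linarith⟩
  · rintro ⟨⟨_, h1, h2⟩, h, h3, h4⟩
    exact ⟨by omega, by linarith, by linarith⟩

lemma near {a δ x : ℝ} (ha : 0 < a) (hδ : δ ≤ 2 * a) {j k : ℕ} (hj : j ∈ cS a δ x)
    (hk : k ∈ cS a δ x) : k ≤ j + 1 := by
  simp only [cS, Finset.mem_filter, abs_lt] at hj hk
  by_contra h
  have h1 : (j : ℝ) + 2 ≤ k := by exact_mod_cast (show j + 2 ≤ k by omega)
  nlinarith [hj.2.2, hk.2.1]

lemma tri {a δ : ℝ} (ha : 0 < a) (hδ : δ ≤ 2 * a) (x : ℝ) :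
    ((cS a δ x).card = 0 ∧ (cT a δ x).card = 0) ∨ ((cS a δ x).card = 1 ∧ (cT a δ x).card = 0) ∨
      ((cS a δ x).card = 2 ∧ (cT a δ x).card = 1) := by
  rcases (cS a δ x).eq_empty_or_nonempty with h | h
  · left
    refine ⟨by simp [h], Finset.card_eq_zero.2 (Finset.eq_empty_of_forall_notMem fun j hj => ?_)⟩
    have := ((mem_cT ha).1 hj).1
    simp [h] at this
  · right
    have hk := Finset.min'_mem _ h
    set k := (cS a δ x).min' h
    have hmin : ∀ j ∈ cS a δ x, k ≤ j := fun j hj => Finset.min'_le _ _ hj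
    by_cases h1 : k + 1 ∈ cS a δ x
    · right
      have e1 : cS a δ x = {k, k + 1} := by
        ext j
        simp only [Finset.mem_insert, Finset.mem_singleton]
        constructor
        · intro hj
          have := hmin j hj
          have := near ha hδ hk hj
          omega
        · rintro (rfl | rfl) <;> assumption
      have e2 : cT a δ x = {k} := by
        ext j
        rw [mem_cT ha, e1]
        simp only [Finset.mem_insert, Finset.mem_singleton]
        omega
      rw [e1, e2]
      simp
    · left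
      have e1 : cS a δ x = {k} := by
        ext j
        simp only [Finset.mem_singleton]
        constructor
        · intro hj
          have := hmin j hj
          have := near ha hδ hk hj
          by_contra hne
          exact h1 (by rwa [show k + 1 = j by omega])
        · rintro rfl; assumption
      have e2 : cT a δ x = ∅ := by
        ext j
        rw [mem_cT ha, e1]
        simp only [Finset.mem_singleton, Finset.notMem_empty]
        constructor
        · omega
        · exact False.elim
      rw [e1, e2]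
      simp

/-- The number of points near `x`. -/
noncomputable def NN (a δ x : ℝ) : ℝ := (cS a δ x).card

/-- The number of pairs of consecutive points near `x`. -/
noncomputable def DD (a δ x : ℝ) : ℝ := (cT a δ x).card

lemma tri' {a δ : ℝ} (ha : 0 < a) (hδ : δ ≤ 2 * a) (x : ℝ) :
    (NN a δ x = 0 ∧ DD a δ x = 0) ∨ (NN a δ x = 1 ∧ DD a δ x = 0) ∨
      (NN a δ x = 2 ∧ DD a δ x = 1) := by
  unfold NN DD
  exact_mod_cast tri ha hδ x

lemma NN_mono {a δ δ' : ℝ} (h : δ ≤ δ') (x : ℝ) : NN a δ x ≤ NN a δ' x := by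
  unfold NN
  refine Nat.cast_le.2 (Finset.card_le_card fun j hj => ?_)
  simp only [cS, Finset.mem_filter] at hj ⊢
  exact ⟨hj.1, hj.2.trans_le h⟩

lemma card_eq_sum (k : ℕ) (p : ℕ → ℝ) (r x : ℝ) :
    (((Finset.range k).filter fun j => |x - p j| < r).card : ℝ) =
      ∑ j ∈ Finset.range k, (Metric.ball (p j) r).indicator (fun _ => (1 : ℝ)) x := by
  rw [Finset.card_filter]
  push_cast
  refine Finset.sum_congr rfl fun j _ => ?_
  simp [Set.indicator, Real.dist_eq]

lemma int_ball (c r : ℝ) : Integrable ((Metric.ball c r).indicator fun _ => (1 : ℝ)) :=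
  (integrableOn_const (by rw [Real.volume_ball]; exact ENNReal.ofReal_ne_top)).integrable_indicator measurableSet_ball

lemma integral_ball (c r : ℝ) :
    ∫ x, (Metric.ball c r).indicator (fun _ => (1 : ℝ)) x = 2 * max r 0 := by
  rw [integral_indicator_const _ measurableSet_ball, smul_eq_mul, mul_one, measureReal_def,
    Real.volume_ball, ENNReal.toReal_ofReal']
  rcases le_total r 0 with h | h
  · rw [max_eq_right h, max_eq_right (by linarith)]; simp
  · rw [max_eq_left h, max_eq_left (by linarith)]

lemma NN_eq (a δ : ℝ) : NN a δ = fun x => ∑ j ∈ Finset.range 8,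
    (Metric.ball (2 * a * j) δ).indicator (fun _ => (1 : ℝ)) x := by
  funext x; exact card_eq_sum 8 (fun j => 2 * a * j) δ x

lemma DD_eq (a δ : ℝ) : DD a δ = fun x => ∑ j ∈ Finset.range 7,
    (Metric.ball (2 * a * j + a) (δ - a)).indicator (fun _ => (1 : ℝ)) x := by
  funext x; exact card_eq_sum 7 (fun j => 2 * a * j + a) (δ - a) x

lemma int_NN (a δ : ℝ) : Integrable (NN a δ) := by
  rw [NN_eq]; exact integrable_finsetSum _ fun j _ => int_ball _ _

lemma int_DD (a δ : ℝ) : Integrable (DD a δ) := by
  rw [DD_eq]; exact integrable_finsetSum _ fun j _ => int_ball _ _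

lemma meas_NN (a δ : ℝ) : Measurable (NN a δ) := by
  rw [NN_eq]
  exact Finset.measurable_sum _ fun j _ => measurable_const.indicator measurableSet_ball

lemma integral_NN (a : ℝ) {δ : ℝ} (hδ : 0 ≤ δ) : ∫ x, NN a δ x = 16 * δ := by
  rw [NN_eq, integral_finsetSum _ fun j _ => int_ball _ _]
  simp only [integral_ball, max_eq_left hδ, Finset.sum_const, Finset.card_range, nsmul_eq_mul]
  push_cast; ring

lemma integral_DD (a δ : ℝ) : ∫ x, DD a δ x = 14 * max (δ - a) 0 := by
  rw [DD_eq, integral_finsetSum _ fun j _ => int_ball _ _]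
  simp only [integral_ball, Finset.sum_const, Finset.card_range, nsmul_eq_mul]
  push_cast; ring

end Pool.Agent.MP_9210c2_an.H7
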