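import Pool.Agent.MP_9210c2_an.H7.Abstract

/-! Choice of the spacings and scales; the upper bound for the covering constant of the cube. -/

namespace Pool.Agent.MP_9210c2_an.H7

open MeasureTheory Set
open scoped ENNReal

lemma sum_pow {m : ℕ} (hm : 0 < m) (j : ℕ) :
    ∑ i ∈ Finset.range (m + 1 + j), (1 + 1 / m : ℝ) ^ (i - m) = (m + 1) * (1 + 1 / m : ℝ) ^ j := by
  induction j with
  | zero =>
    rw [Finset.sum_congr rfl (g := fun _ => 1) fun i hi => by
      rw [show i - m = 0 by have := Finset.mem_range.1 hi; omega, pow_zero]]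
    simp
  | succ j ih =>
    have hm' : (0 : ℝ) < m := by exact_mod_cast hm
    rw [← add_assoc, Finset.sum_range_succ, ih, show m + 1 + j - m = j + 1 by omega, pow_succ]
    field_simp

lemma sum_max {m n j : ℕ} (hm : 0 < m) (h : m + 1 + j ≤ n) :
    ∑ i : Fin n, max ((1 + 1 / m : ℝ) ^ j - (1 + 1 / m : ℝ) ^ (i.1 - m)) 0 =
      j * (1 + 1 / m : ℝ) ^ j := by
  have hq : (1 : ℝ) ≤ 1 + 1 / m := le_add_of_nonneg_right (by positivity)
  rw [Fin.sum_univ_eq_sum_range
    (fun i => max ((1 + 1 / m : ℝ) ^ j - (1 + 1 / m : ℝ) ^ (i - m)) 0) n,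
    ← Finset.sum_subset (Finset.range_subset_range.2 h) (fun i _ hi => max_eq_right
      (sub_nonpos.2 (pow_le_pow_right₀ hq (by have := Finset.mem_range.not.1 hi; omega)))),
    Finset.sum_congr rfl (fun i hi => max_eq_left
      (sub_nonneg.2 (pow_le_pow_right₀ hq (by have := Finset.mem_range.1 hi; omega)))),
    Finset.sum_sub_distrib, sum_pow hm]
  simp
  ring

lemma ratio_le {g ρ : ℝ} (hg : 0 < g) (h1 : 1 ≤ ρ) (h2 : ρ ≤ 1.1) :
    (g ^ 2 + 0.42 * ((g * ρ) ^ 2 - g ^ 2)) / (g * (g * ρ)) ≤ Real.exp (-((ρ - 1) / 10)) := by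
  refine le_trans ?_ (Real.add_one_le_exp _)
  rw [div_le_iff₀ (by positivity)]
  have h3 : 1 + 0.42 * (ρ ^ 2 - 1) ≤ (-((ρ - 1) / 10) + 1) * ρ := by nlinarith
  have h4 : 0 < g ^ 2 := by positivity
  nlinarith [mul_le_mul_of_nonneg_left h3 h4.le]

theorem large {n : ℕ} (hn : 600 ≤ n) {c : ℝ≥0∞} (hc : Admissible (cube n) c) (hc0 : c ≠ 0) :
    c.toReal ≤ 40000 / √n := by
  have hn' : (600 : ℝ) ≤ n := by exact_mod_cast hn
  have l1 := Real.log_two_gt_d9
  have l2 := Real.log_two_lt_d9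
  set γ : ℝ := 7 / 4 * Real.log 2 with hγ
  have hγ0 : 0 < γ := by positivity
  obtain ⟨m, hm1, hm2⟩ : ∃ m : ℕ, m * γ ≤ n ∧ n < (m + 1) * γ :=
    ⟨⌊n / γ⌋₊, (le_div_iff₀ hγ0).1 (Nat.floor_le (by positivity)),
      (div_lt_iff₀ hγ0).1 (Nat.lt_floor_add_one _)⟩
  have hm0 : (0 : ℝ) ≤ m := Nat.cast_nonneg m
  have hm3 : 0.8 * (n : ℝ) ≤ m := by nlinarith
  have hm4 : (m : ℝ) ≤ 0.83 * n := by nlinarith
  have hmp : (0 : ℝ) < m := by linarith
  have hm : 0 < m := by exact_mod_cast hmp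
  set q : ℝ := 1 + 1 / m with hq
  have hq1 : 1 ≤ q := le_add_of_nonneg_right (by positivity)
  have hq0 : 0 < q := by linarith
  have hlog1 : Real.log q ≤ 1 / m := by
    have := Real.log_le_sub_one_of_pos hq0; linarith
  have hlog2 : 1 / (m + 1) ≤ Real.log q := by
    refine le_trans (le_of_eq ?_) (Real.one_sub_inv_le_log_of_pos hq0)
    rw [hq]; field_simp; ring
  have hexp : ∀ k : ℕ, q ^ k = Real.exp (k * Real.log q) := fun k => by
    rw [Real.exp_nat_mul, Real.exp_log hq0]
  have hsmall : ∀ k : ℕ, 20 * k ≤ n → q ^ k ≤ 1.1 := by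
    intro k hk
    have hk' : 20 * (k : ℝ) ≤ n := by exact_mod_cast hk
    have h1 : k * Real.log q ≤ 1 / 16 := by
      refine (mul_le_mul_of_nonneg_left hlog1 (Nat.cast_nonneg k)).trans ?_
      rw [mul_one_div, div_le_iff₀ hmp]; linarith
    have h2 := (abs_le.1 (Real.abs_exp_sub_one_sub_id_le (x := 1 / 16) (by norm_num [abs_of_pos]))).2
    rw [hexp]
    refine (Real.exp_le_exp.2 h1).trans (by linarith)
  have hN : ∀ l < n / 600 + 1, 600 * l ≤ n := fun l hl => by omega
  have hsq : ∀ l : ℕ, (q ^ (30 * l)) ^ 2 = q ^ (60 * l) := fun l => by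
    rw [← pow_mul]; congr 1; ring
  have key := abstract_bound hc hc0 (by omega) (a := fun i => q ^ (i.1 - m))
    (fun i => pow_pos hq0 _) (n / 600 + 1) (fun l => q ^ (30 * l)) (fun l => pow_pos hq0 _)
    (fun l k h => pow_le_pow_right₀ hq1 (by omega))
    (fun l hl i => by
      have h1 := hsmall (30 * l) (by have := hN l hl; omega)
      have h2 : 1 ≤ q ^ (i.1 - m) := one_le_pow₀ hq1
      have h3 : 0 < q ^ (30 * l) := pow_pos hq0 _
      nlinarith)
    (fun l => 105 * l)
    (fun l hl => by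
      have h1 : (600 : ℝ) * l ≤ n := by exact_mod_cast hN l hl
      have h2 : m + 1 + 60 * l ≤ n := by
        have : (m : ℝ) + 1 + 60 * l ≤ n := by linarith
        exact_mod_cast this
      have h3 : 0 < q ^ (60 * l) := pow_pos hq0 _
      simp only [hsq]
      rw [← Finset.sum_div, ← Finset.mul_sum, sum_max hm h2, ← hq]
      push_cast
      field_simp
      ring)
    (fun l hl => by have := hN l hl; omega)
    (fun l hl => by
      have h1 : (600 : ℝ) * l ≤ n := by exact_mod_cast hN l hl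
      have hl0 : (0 : ℝ) ≤ l := Nat.cast_nonneg l
      have e : (2 : ℝ) ^ (105 * l) / ((q ^ (30 * l)) ^ 2) ^ n =
          Real.exp (60 * l * (γ - n * Real.log q)) := by
        rw [hsq, ← pow_mul, hexp, ← Real.exp_log (x := 2) (by norm_num), ← Real.exp_nat_mul,
          ← Real.exp_sub, hγ]
        congr 1
        push_cast
        ring
      have a1 : γ ≤ n / m := by rw [le_div_iff₀ hmp]; linarith
      have a2 : n / (m + 1) ≤ γ := by rw [div_le_iff₀ (by linarith)]; linarith
      have a3 : n * Real.log q ≤ n / m := by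
        rw [div_eq_mul_one_div]; exact mul_le_mul_of_nonneg_left hlog1 (by linarith)
      have a4 : n / (m + 1) ≤ n * Real.log q := by
        rw [div_eq_mul_one_div]; exact mul_le_mul_of_nonneg_left hlog2 (by linarith)
      have a5 : (n : ℝ) / m - n / (m + 1) ≤ 2 / n := by
        rw [div_sub_div _ _ hmp.ne' (by linarith), div_le_div_iff₀ (by positivity) (by linarith)]
        nlinarith
      have a6 : 60 * (l : ℝ) * (2 / n) ≤ 1 / 5 := by
        rw [← mul_div_assoc, div_le_iff₀ (by linarith)]; linarith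
      have a7 : 60 * (l : ℝ) * (γ - n * Real.log q) ≤ 60 * l * (2 / n) :=
        mul_le_mul_of_nonneg_left (by linarith) (by linarith)
      have a8 : 60 * (l : ℝ) * (-(2 / n)) ≤ 60 * l * (γ - n * Real.log q) :=
        mul_le_mul_of_nonneg_left (by linarith) (by linarith)
      rw [e]
      constructor
      · refine le_trans ?_ (Real.add_one_le_exp _)
        linarith
      · rw [← Real.exp_log (x := 2) (by norm_num)]
        exact Real.exp_le_exp.2 (by linarith))
    (fun l k hlk hk => by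
      obtain ⟨d, rfl⟩ := Nat.exists_eq_add_of_le hlk.le
      have h1 := hsmall (30 * d) (by have := hN _ hk; omega)
      have h2 : 1 + (30 * d : ℕ) * (1 / m : ℝ) ≤ q ^ (30 * d) :=
        one_add_mul_le_pow (by have : (0 : ℝ) ≤ 1 / m := by positivity
                               linarith) _
      have h3 := ratio_le (g := q ^ (30 * l)) (pow_pos hq0 _) (one_le_pow₀ hq1) h1
      have hd0 : (0 : ℝ) ≤ d := Nat.cast_nonneg d
      have h4 : 30 * (d : ℝ) ≤ n * (q ^ (30 * d) - 1) := by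
        have h5 : (d : ℝ) ≤ n * (d * (1 / m)) := by
          rw [mul_one_div, ← mul_div_assoc, le_div_iff₀ hmp]; nlinarith
        push_cast at h2
        nlinarith
      have h6 : 0 ≤ (q ^ (30 * l) * q ^ (30 * d)) ^ 2 - (q ^ (30 * l)) ^ 2 :=
        sub_nonneg.2 (pow_le_pow_left₀ (by positivity)
          (le_mul_of_one_le_right (by positivity) (one_le_pow₀ hq1)) 2)
      simp only [mul_add, pow_add, Nat.add_sub_cancel_left]
      refine (pow_le_pow_left₀ (by positivity) h3 n).trans ?_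
      rw [← Real.exp_nat_mul]
      refine le_trans (Real.exp_le_exp.2 (show _ ≤ d * (-3 : ℝ) by linarith)) ?_
      rw [Real.exp_nat_mul]
      exact pow_le_pow_left₀ (Real.exp_pos _).le exp_neg_three d)
    ⌈4 * √n⌉₊ (Nat.le_ceil _)
  have hs : 1 ≤ √(n : ℝ) := Real.one_le_sqrt.2 (by linarith)
  have hs2 : √(n : ℝ) * √n = n := Real.mul_self_sqrt (by linarith)
  have hT : (⌈4 * √(n : ℝ)⌉₊ : ℝ) < 4 * √n + 1 := Nat.ceil_lt_add_one (by positivity)
  have hNN : (n : ℝ) ≤ 600 * ((n / 600 + 1 : ℕ) : ℝ) := by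
    exact_mod_cast (show n ≤ 600 * (n / 600 + 1) by omega)
  have hc' : 0 ≤ c.toReal := ENNReal.toReal_nonneg
  rw [le_div_iff₀ (by linarith)]
  refine le_of_mul_le_mul_right ?_ (show (0 : ℝ) < √n by linarith)
  rw [mul_assoc, hs2]
  nlinarith [mul_le_mul_of_nonneg_left hNN hc']

theorem cube_upper {n : ℕ} (hn : 1 ≤ n) : covConst (cube n) ≤ ENNReal.ofReal (40000 / √n) := by
  refine sSup_le fun c hc => ?_
  have h1 : c ≤ 1 := admissible_le_one hc
  have hn' : (1 : ℝ) ≤ n := by exact_mod_cast hn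
  have hs : 0 < √(n : ℝ) := Real.sqrt_pos.2 (by linarith)
  rcases lt_or_ge n 600 with h | h
  · refine h1.trans (ENNReal.one_le_ofReal.2 ?_)
    have h' : (n : ℝ) ≤ 600 := by exact_mod_cast h.le
    rw [le_div_iff₀ hs, one_mul, Real.sqrt_le_left (by norm_num)]
    linarith
  · by_cases hc0 : c = 0
    · simp [hc0]
    · rw [← ENNReal.ofReal_toReal (h1.trans_lt ENNReal.one_lt_top).ne]
      exact ENNReal.ofReal_le_ofReal (large h hc hc0)

end Pool.Agent.MP_9210c2_an.H7
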